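import Mathlib
import Pool.Agent.Helper240.ZFM.R1
import Pool.Agent.Helper240.ZFM.R3

/-!
# A Riesz idempotent for a disconnected spectrum, by the Cauchy-Pompeiu formula
-/

set_option autoImplicit false

open MeasureTheory Filter Topology Set Metric ZFM

namespace Pool.Agent.V110.ES

variable {A : Type*} [NormedRing A] [NormedAlgebra ℂ A] [CompleteSpace A]

theorem dbar_continuous {u : ℂ → ℂ} (hu : ContDiff ℝ 1 u) : Continuous (dbar u) := by
  have h := hu.continuous_fderiv one_ne_zero
  unfold dbar
  exact (((h.clm_apply continuous_const).add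
    (continuous_const.mul (h.clm_apply continuous_const))).div_const 2)

theorem contG (a : A) {u : ℂ → ℂ} (hu : ContDiff ℝ 1 u) {E : Set ℂ} (hE : IsCompact E)
    (hES : Disjoint E (spectrum ℂ a)) (hd : ∀ w, w ∉ E → dbar u w = 0) :
    Continuous (fun w => dbar u w • resolvent a w) := by
  rw [continuous_iff_continuousAt]
  intro w
  by_cases hw : w ∈ spectrum ℂ a
  · have hwE : w ∉ E := fun h => Set.disjoint_left.1 hES h hw
    have h0 : (fun _ : ℂ => (0 : A)) =ᶠ[𝓝 w] (fun w => dbar u w • resolvent a w) := by
      filter_upwards [hE.isClosed.isOpen_compl.mem_nhds hwE] with z hz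
      rw [hd z hz, zero_smul]
    exact continuousAt_const.congr h0
  · have hw' : w ∈ resolventSet ℂ a := by
      by_contra h
      exact hw h
    exact (dbar_continuous hu).continuousAt.smul
      (spectrum.hasDerivAt_resolvent_const_left hw').continuousAt

theorem suppG (a : A) {u : ℂ → ℂ} {E : Set ℂ} (hE : IsCompact E)
    (hd : ∀ w, w ∉ E → dbar u w = 0) :
    HasCompactSupport (fun w => dbar u w • resolvent a w) :=
  HasCompactSupport.intro hE fun w hw => by rw [hd w hw, zero_smul]

/-- the Cauchy transform of a continuous compactly supported function is holomorphic off a compact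
set containing the support -/
theorem cauchy_diff {G : ℂ → A} (hG : Continuous G) {E : Set ℂ} (hE : IsCompact E)
    (hd : ∀ w, w ∉ E → G w = 0) {z : ℂ} (hz : z ∉ E) :
    DifferentiableAt ℂ (fun l => ∫ w : ℂ, (l - w)⁻¹ • G w) z := by
  obtain ⟨ε, hε, hεE⟩ := Metric.isOpen_iff.1 hE.isClosed.isOpen_compl z hz
  have hGs : HasCompactSupport G := HasCompactSupport.intro hE hd
  have hGi : Integrable G := hG.integrable_of_hasCompactSupport hGs
  have hne : ∀ l ∈ ball z (ε / 2), ∀ w ∈ E, ε / 2 ≤ ‖l - w‖ := by
    intro l hl w hw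
    have h1 : w ∉ ball z ε := fun h => hεE h hw
    rw [mem_ball, not_lt] at h1
    rw [mem_ball] at hl
    have h2 := dist_triangle w l z
    rw [← dist_eq_norm, dist_comm l w]
    linarith
  have hm : ∀ l : ℂ, AEStronglyMeasurable (fun w : ℂ => (l - w)⁻¹ • G w) volume := by
    intro l
    exact (by fun_prop : Measurable fun w : ℂ => (l - w)⁻¹).aestronglyMeasurable.smul
      hG.aestronglyMeasurable
  have key := hasDerivAt_integral_of_dominated_loc_of_deriv_le (𝕜 := ℂ) (μ := (volume : Measure ℂ))
    (F := fun l w => (l - w)⁻¹ • G w) (F' := fun l w => (-((l - w) ^ 2)⁻¹) • G w) (x₀ := z)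
    (s := ball z (ε / 2)) (bound := fun w => ((ε / 2) ^ 2)⁻¹ * ‖G w‖)
    (ball_mem_nhds z (by positivity)) (Eventually.of_forall hm) ?_ ?_ ?_ ?_ ?_
  · exact key.2.differentiableAt
  · refine Integrable.mono' (g := fun w => (ε / 2)⁻¹ * ‖G w‖) (hGi.norm.const_mul _) (hm z) ?_
    refine Eventually.of_forall fun w => ?_
    by_cases hw : w ∈ E
    · rw [norm_smul, norm_inv]
      gcongr
      exact hne z (mem_ball_self (by positivity)) w hw
    · rw [hd w hw, smul_zero, norm_zero, mul_zero]
  · exact ((by fun_prop : Measurable fun w : ℂ => -((z - w) ^ 2)⁻¹).aestronglyMeasurable.smul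
      hG.aestronglyMeasurable)
  · refine Eventually.of_forall fun w l hl => ?_
    by_cases hw : w ∈ E
    · rw [norm_smul, norm_neg, norm_inv, norm_pow]
      gcongr
      exact hne l hl w hw
    · simp only [hd w hw, smul_zero, norm_zero, mul_zero, le_refl]
  · exact hGi.norm.const_mul _
  · refine Eventually.of_forall fun w l hl => ?_
    by_cases hw : w ∈ E
    · have h0 : l - w ≠ 0 := by
        intro h
        have := hne l hl w hw
        rw [h, norm_zero] at this
        linarith
      have h1 : HasDerivAt (fun l : ℂ => l - w) 1 l := (hasDerivAt_id l).sub_const w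
      have h2 := (h1.inv h0).smul_const (G w)
      rw [neg_div, one_div] at h2
      exact h2
    · simp only [hd w hw, smul_zero]
      exact hasDerivAt_const _ _

/-- **Riesz idempotent.** If the spectrum of an element of a complex Banach algebra is the union of
two nonempty disjoint closed sets, then the element commutes with a nontrivial idempotent. -/
theorem riesz (a : A) {S₁ S₂ : Set ℂ} (h₁ : IsClosed S₁) (h₂ : IsClosed S₂) (hd : Disjoint S₁ S₂)
    (n₁ : S₁.Nonempty) (n₂ : S₂.Nonempty) (hS : spectrum ℂ a = S₁ ∪ S₂) :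
    ∃ e : A, e * e = e ∧ e * a = a * e ∧ e ≠ 0 ∧ e ≠ 1 := by
  have hSc : IsCompact (spectrum ℂ a) := spectrum.isCompact a
  have c₁ : IsCompact S₁ := hSc.of_isClosed_subset h₁ (hS ▸ subset_union_left)
  have c₂ : IsCompact S₂ := hSc.of_isClosed_subset h₂ (hS ▸ subset_union_right)
  -- disjoint closed thickenings
  obtain ⟨δ, hδ, hdis⟩ := hd.exists_cthickenings c₁ h₂
  have hK1 : IsCompact (cthickening (δ / 2) S₁) := c₁.cthickening
  have hK2 : IsCompact (cthickening (δ / 2) S₂) := c₂.cthickening
  have hKc : IsCompact (cthickening (δ / 2) S₁ ∪ cthickening (δ / 2) S₂) := hK1.union hK2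
  have hdisU : Disjoint (thickening δ S₁) (thickening δ S₂) :=
    hdis.mono (thickening_subset_cthickening _ _) (thickening_subset_cthickening _ _)
  have hUo : IsOpen (thickening δ S₁ ∪ thickening δ S₂) := isOpen_thickening.union isOpen_thickening
  have hKU : cthickening (δ / 2) S₁ ∪ cthickening (δ / 2) S₂ ⊆ thickening δ S₁ ∪ thickening δ S₂ :=
    union_subset_union (cthickening_subset_thickening' hδ (by linarith) _)
      (cthickening_subset_thickening' hδ (by linarith) _)
  classical
  set f : ℂ → ℂ := (thickening δ S₁).indicator (fun _ => 1) with hf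
  have hfd : DifferentiableOn ℂ f (thickening δ S₁ ∪ thickening δ S₂) := by
    intro z hz
    rcases hz with hz | hz
    · have : f =ᶠ[𝓝 z] fun _ => 1 := by
        filter_upwards [isOpen_thickening.mem_nhds hz] with w hw
        rw [hf, indicator_of_mem hw]
      exact ((differentiableAt_const (1 : ℂ)).congr_of_eventuallyEq this).differentiableWithinAt
    · have : f =ᶠ[𝓝 z] fun _ => 0 := by
        filter_upwards [isOpen_thickening.mem_nhds hz] with w hw
        rw [hf, indicator_of_notMem (fun h => Set.disjoint_left.1 hdisU h hw)]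
      exact ((differentiableAt_const (0 : ℂ)).congr_of_eventuallyEq this).differentiableWithinAt
  obtain ⟨u, hu, hus, huK, E, hE, hEK, hdb⟩ := J_r3.runge_cutoff hKc hUo hKU f hfd
  have hu1 : ∀ z ∈ cthickening (δ / 2) S₁, u z = 1 := by
    intro z hz
    rw [huK z (Or.inl hz), hf, indicator_of_mem (cthickening_subset_thickening' hδ (by linarith) _ hz)]
  have hu2 : ∀ z ∈ cthickening (δ / 2) S₂, u z = 0 := by
    intro z hz
    rw [huK z (Or.inr hz), hf, indicator_of_notMem]
    exact fun h => Set.disjoint_left.1 hdisU h (cthickening_subset_thickening' hδ (by linarith) _ hz)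
  have hsub1 : S₁ ⊆ thickening (δ / 2) S₁ := self_subset_thickening (by positivity) _
  have hsub2 : S₂ ⊆ thickening (δ / 2) S₂ := self_subset_thickening (by positivity) _
  have hES : Disjoint E (spectrum ℂ a) := by
    rw [hS]
    refine hEK.mono_right (union_subset_union ?_ ?_)
    · exact hsub1.trans (thickening_subset_cthickening _ _)
    · exact hsub2.trans (thickening_subset_cthickening _ _)
  -- the integrals
  set G : ℂ → A := fun w => dbar u w • resolvent a w with hG
  have hGc : Continuous G := contG a hu hE hES hdb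
  have hG0 : ∀ w, w ∉ E → G w = 0 := fun w hw => by
    change dbar u w • resolvent a w = 0
    rw [hdb w hw, zero_smul]
  have hGs : HasCompactSupport G := HasCompactSupport.intro hE hG0
  have hGi : Integrable G := hGc.integrable_of_hasCompactSupport hGs
  set c : ℂ := 1 / (Real.pi : ℂ) with hc
  set P : A := -(c • ∫ w : ℂ, G w) with hP
  set B : ℂ → A := fun l => c • ∫ w : ℂ, (l - w)⁻¹ • G w with hB
  have hBd : ∀ z, z ∉ E → DifferentiableAt ℂ B z := fun z hz =>
    (cauchy_diff hGc hE hG0 hz).const_smul c
  have hBi : ∀ z, z ∉ E → Integrable (fun w : ℂ => (z - w)⁻¹ • G w) := by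
    intro z hz
    refine Continuous.integrable_of_hasCompactSupport ?_ (HasCompactSupport.intro hE fun w hw => by
      rw [hG0 w hw, smul_zero])
    rw [continuous_iff_continuousAt]
    intro w
    by_cases hw : w ∈ E
    · have : z - w ≠ 0 := by
        rw [sub_ne_zero]; rintro rfl; exact hz hw
      exact ((continuousAt_const.sub continuousAt_id).inv₀ this).smul hGc.continuousAt
    · have h0 : (fun _ : ℂ => (0 : A)) =ᶠ[𝓝 w] (fun w => (z - w)⁻¹ • G w) := by
        filter_upwards [hE.isClosed.isOpen_compl.mem_nhds hw] with y hy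
        rw [hG0 y hy, smul_zero]
      exact continuousAt_const.congr h0
  have hres : ∀ w ∈ E, (algebraMap ℂ A w - a) * resolvent a w = 1 ∧
      resolvent a w * (algebraMap ℂ A w - a) = 1 := by
    intro w hw
    have hw' : IsUnit (algebraMap ℂ A w - a) := by
      by_contra h
      exact Set.disjoint_left.1 hES hw h
    exact ⟨Ring.mul_inverse_cancel _ hw', Ring.inverse_mul_cancel _ hw'⟩
  -- multiplication of the integrals by `l - a`
  have hmul : ∀ l, l ∉ E → (algebraMap ℂ A l - a) * B l = u l • 1 - P := by
    intro l hl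
    have e1 : ∀ w, (algebraMap ℂ A l - a) * ((l - w)⁻¹ • G w) =
        (dbar u w / (l - w)) • (1 : A) + G w := by
      intro w
      by_cases hw : w ∈ E
      · have h0 : l - w ≠ 0 := by rw [sub_ne_zero]; rintro rfl; exact hl hw
        have h1 : algebraMap ℂ A l - a = (algebraMap ℂ A w - a) + (l - w) • (1 : A) := by
          rw [sub_smul, Algebra.algebraMap_eq_smul_one, Algebra.algebraMap_eq_smul_one]; abel
        change _ * ((l - w)⁻¹ • (dbar u w • resolvent a w)) = _
        rw [mul_smul_comm, mul_smul_comm, h1, add_mul, (hres w hw).1, smul_mul_assoc, one_mul,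
          smul_add, smul_add, smul_smul, smul_smul, smul_smul]
        congr 2
        · rw [div_eq_inv_mul]
        · field_simp
      · rw [hG0 w hw, hdb w hw]; simp
    have e2 : (algebraMap ℂ A l - a) * (∫ w : ℂ, (l - w)⁻¹ • G w) =
        ∫ w : ℂ, (algebraMap ℂ A l - a) * ((l - w)⁻¹ • G w) :=
      (integral_const_mul_of_integrable (hBi l hl)).symm
    change (algebraMap ℂ A l - a) * (c • ∫ w : ℂ, (l - w)⁻¹ • G w) = _
    rw [mul_smul_comm, e2]
    simp only [e1]
    have hsi : Integrable (fun w : ℂ => dbar u w / (l - w)) := by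
      refine Continuous.integrable_of_hasCompactSupport ?_
        (HasCompactSupport.intro hE fun w hw => by rw [hdb w hw, zero_div])
      rw [continuous_iff_continuousAt]
      intro w
      by_cases hw : w ∈ E
      · have : l - w ≠ 0 := by
          rw [sub_ne_zero]; rintro rfl; exact hl hw
        exact (dbar_continuous hu).continuousAt.div (continuousAt_const.sub continuousAt_id) this
      · have h0 : (fun _ : ℂ => (0 : ℂ)) =ᶠ[𝓝 w] (fun w => dbar u w / (l - w)) := by
          filter_upwards [hE.isClosed.isOpen_compl.mem_nhds hw] with y hy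
          rw [hdb y hy, zero_div]
        exact continuousAt_const.congr h0
    rw [integral_add (hsi.smul_const _) hGi, integral_smul_const, smul_add, smul_smul,
      ← J_r1.pompeiu u hu hus l, hP, sub_neg_eq_add]
  -- commutation
  have comm : ∀ F : ℂ → A, Integrable F → (∀ w, F w * a = a * F w) →
      (∫ w, F w) * a = a * ∫ w, F w := by
    intro F hF h
    rw [← integral_mul_const_of_integrable hF, ← integral_const_mul_of_integrable hF]
    simp only [h]
  have hGa : ∀ w, G w * a = a * G w := by
    intro w
    by_cases hw : w ∈ E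
    · change (dbar u w • resolvent a w) * a = a * (dbar u w • resolvent a w)
      rw [smul_mul_assoc, mul_smul_comm]
      congr 1
      have h1 := (hres w hw).1
      have h2 := (hres w hw).2
      have h3 : (algebraMap ℂ A w) * resolvent a w = resolvent a w * algebraMap ℂ A w :=
        Algebra.commutes _ _
      rw [sub_mul] at h1
      rw [mul_sub] at h2
      rw [← h3] at h2
      have := h1.trans h2.symm
      rw [sub_right_inj] at this
      exact this.symm
    · rw [hG0 w hw, zero_mul, mul_zero]
  have hPa : P * a = a * P := by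
    rw [hP, neg_mul, mul_neg, smul_mul_assoc, mul_smul_comm, comm G hGi hGa]
  have hBa : ∀ l, l ∉ E → B l * a = a * B l := by
    intro l hl
    change (c • ∫ w : ℂ, (l - w)⁻¹ • G w) * a = a * (c • ∫ w : ℂ, (l - w)⁻¹ • G w)
    rw [smul_mul_assoc, mul_smul_comm, comm _ (hBi l hl) fun w => by
      rw [smul_mul_assoc, mul_smul_comm, hGa]]
  have hE1 : ∀ z ∈ cthickening (δ / 2) S₁, z ∉ E := fun z hz hzE =>
    Set.disjoint_left.1 hEK hzE (Or.inl hz)
  have hE2 : ∀ z ∈ cthickening (δ / 2) S₂, z ∉ E := fun z hz hzE =>
    Set.disjoint_left.1 hEK hzE (Or.inr hz)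
  -- nontriviality
  have hP0 : P ≠ 0 := by
    intro h0
    obtain ⟨l, hl⟩ := n₁
    have hlc := thickening_subset_cthickening _ _ (hsub1 hl)
    have h1 := hmul l (hE1 l hlc)
    rw [hu1 l hlc, one_smul, h0, sub_zero] at h1
    have h2 : B l * (algebraMap ℂ A l - a) = 1 := by
      rw [mul_sub, hBa l (hE1 l hlc), ← Algebra.commutes, ← sub_mul, h1]
    have : IsUnit (algebraMap ℂ A l - a) := ⟨⟨_, B l, h1, h2⟩, rfl⟩
    have hls : l ∈ spectrum ℂ a := hS ▸ Or.inl hl
    exact hls this
  have hP1 : P ≠ 1 := by
    intro h0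
    obtain ⟨l, hl⟩ := n₂
    have hlc := thickening_subset_cthickening _ _ (hsub2 hl)
    have h1 := hmul l (hE2 l hlc)
    rw [hu2 l hlc, zero_smul, h0, zero_sub] at h1
    have h1' : (algebraMap ℂ A l - a) * (-B l) = 1 := by rw [mul_neg, h1, neg_neg]
    have h2 : (-B l) * (algebraMap ℂ A l - a) = 1 := by
      rw [neg_mul, mul_sub, hBa l (hE2 l hlc), ← Algebra.commutes, ← sub_mul, h1, neg_neg]
    have : IsUnit (algebraMap ℂ A l - a) := ⟨⟨_, -B l, h1', h2⟩, rfl⟩
    have hls : l ∈ spectrum ℂ a := hS ▸ Or.inr hl
    exact hls this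
  -- idempotent
  refine ⟨P, ?_, hPa, hP0, hP1⟩
  set F : ℂ → A := fun l => if l ∈ thickening (δ / 2) S₁ then P * B l else
    if l ∈ thickening (δ / 2) S₂ then -(B l * (1 - P)) else resolvent a l * (P * (1 - P)) with hF
  have hru : ∀ l, l ∉ spectrum ℂ a → (algebraMap ℂ A l - a) * resolvent a l = 1 ∧
      resolvent a l * (algebraMap ℂ A l - a) = 1 := by
    intro l hl
    have hw' : IsUnit (algebraMap ℂ A l - a) := by
      by_contra h
      exact hl h
    exact ⟨Ring.mul_inverse_cancel _ hw', Ring.inverse_mul_cancel _ hw'⟩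
  have hPl : ∀ l, P * (algebraMap ℂ A l - a) = (algebraMap ℂ A l - a) * P := by
    intro l
    rw [mul_sub, sub_mul, hPa, ← Algebra.commutes]
  have hFr : ∀ l, l ∉ spectrum ℂ a → F l = resolvent a l * (P * (1 - P)) := by
    intro l hl
    simp only [hF]
    split_ifs with g1 g2
    · have hlc := thickening_subset_cthickening _ _ g1
      have h1 := hmul l (hE1 l hlc)
      rw [hu1 l hlc, one_smul] at h1
      rw [← h1, ← mul_assoc P, hPl, mul_assoc, ← mul_assoc, (hru l hl).2, one_mul]
    · have hlc := thickening_subset_cthickening _ _ g2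
      have h1 := hmul l (hE2 l hlc)
      rw [hu2 l hlc, zero_smul, zero_sub] at h1
      rw [← mul_assoc, ← neg_mul]
      congr 1
      rw [← neg_neg P, ← h1, mul_neg, ← mul_assoc, (hru l hl).2, one_mul]
    · rfl
  have hFd : Differentiable ℂ F := by
    intro l
    by_cases g1 : l ∈ thickening (δ / 2) S₁
    · have hev : F =ᶠ[𝓝 l] fun l => P * B l := by
        filter_upwards [isOpen_thickening.mem_nhds g1] with w hw
        simp only [hF, if_pos hw]
      refine DifferentiableAt.congr_of_eventuallyEq ?_ hev
      exact (hBd l (hE1 l (thickening_subset_cthickening _ _ g1))).const_mul P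
    · by_cases g2 : l ∈ thickening (δ / 2) S₂
      · have hev : F =ᶠ[𝓝 l] fun l => -(B l * (1 - P)) := by
          filter_upwards [isOpen_thickening.mem_nhds g2] with w hw
          have hw1 : w ∉ thickening (δ / 2) S₁ := by
            intro h
            exact Set.disjoint_left.1 hdisU (thickening_mono (by linarith) _ h)
              (thickening_mono (by linarith) _ hw)
          simp only [hF, if_neg hw1, if_pos hw]
        refine DifferentiableAt.congr_of_eventuallyEq ?_ hev
        exact ((hBd l (hE2 l (thickening_subset_cthickening _ _ g2))).mul_const _).neg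
      · have hls : l ∈ resolventSet ℂ a := by
          by_contra h
          have : l ∈ S₁ ∪ S₂ := hS ▸ h
          rcases this with h | h
          · exact g1 (hsub1 h)
          · exact g2 (hsub2 h)
        have hev : F =ᶠ[𝓝 l] fun l => resolvent a l * (P * (1 - P)) := by
          filter_upwards [(spectrum.isOpen_resolventSet a).mem_nhds hls] with w hw
          exact hFr w (fun h => h hw)
        refine DifferentiableAt.congr_of_eventuallyEq ?_ hev
        exact (spectrum.hasDerivAt_resolvent_const_left hls).differentiableAt.mul_const _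
  have hFt : Tendsto F (cocompact ℂ) (𝓝 0) := by
    have h1 : Tendsto (fun l => resolvent a l * (P * (1 - P))) (cocompact ℂ) (𝓝 0) := by
      have := (spectrum.resolvent_tendsto_cobounded (𝕜 := ℂ) a).mul_const (P * (1 - P))
      rwa [zero_mul, Metric.cobounded_eq_cocompact] at this
    refine h1.congr' ?_
    filter_upwards [hSc.compl_mem_cocompact] with l hl
    exact (hFr l hl).symm
  have hF0 : ∀ l, F l = 0 := fun l => hFd.apply_eq_of_tendsto_cocompact l hFt
  -- a point of the resolvent set
  obtain ⟨l, hl⟩ : ∃ l, l ∉ spectrum ℂ a := by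
    by_contra h
    push_neg at h
    have : spectrum ℂ a = univ := eq_univ_of_forall h
    exact NoncompactSpace.noncompact_univ (this ▸ hSc)
  have h1 := hFr l hl
  rw [hF0 l] at h1
  have h2 : P * (1 - P) = 0 := by
    have : (algebraMap ℂ A l - a) * (resolvent a l * (P * (1 - P))) = P * (1 - P) := by
      rw [← mul_assoc, (hru l hl).1, one_mul]
    rw [← this, ← h1, mul_zero]
  rw [mul_sub, mul_one, sub_eq_zero] at h2
  exact h2.symm

end Pool.Agent.V110.ES
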