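import Mathlib
import Pool.Agent.V110.ES.Riesz

/-!
# Operators all of whose closed invariant subspaces have finite codimension: first facts
-/

set_option autoImplicit false

open Filter Topology Set Metric

namespace Pool.Agent.V110.ES

variable {X : Type*} [NormedAddCommGroup X] [NormedSpace ℂ X]

/-- every closed invariant subspace of `T` other than `{0}` and the whole space has finite
codimension -/
def FinCodimLat (T : X →L[ℂ] X) : Prop :=
  ∀ M : Submodule ℂ X, IsClosed (M : Set X) → (∀ x ∈ M, T x ∈ M) → M ≠ ⊥ → M ≠ ⊤ →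
    FiniteDimensional ℂ (X ⧸ M)

theorem FinCodimLat.fd {T : X →L[ℂ] X} (hT : FinCodimLat T) {M : Submodule ℂ X}
    (hM : IsClosed (M : Set X)) (hi : ∀ x ∈ M, T x ∈ M) (h0 : M ≠ ⊥) :
    FiniteDimensional ℂ (X ⧸ M) := by
  by_cases h : M = ⊤
  · subst h
    have : Subsingleton (X ⧸ (⊤ : Submodule ℂ X)) := Submodule.Quotient.subsingleton_iff.2 rfl
    infer_instance
  · exact hT M hM hi h0 h

theorem FinCodimLat.inj {T : X →L[ℂ] X} (hT : FinCodimLat T) (hinf : ¬ FiniteDimensional ℂ X)
    (z : ℂ) (x : X) (hx : T x = z • x) : x = 0 := by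
  by_contra h0
  apply hinf
  have h1 : FiniteDimensional ℂ (X ⧸ Submodule.span ℂ {x}) := by
    refine hT.fd (Submodule.closed_of_finiteDimensional _) ?_ ?_
    · intro y hy
      obtain ⟨c, rfl⟩ := Submodule.mem_span_singleton.1 hy
      rw [map_smul, hx, smul_comm]
      exact Submodule.smul_mem _ _ hy
    · rw [Ne, Submodule.span_singleton_eq_bot]
      exact h0
  exact Module.Finite.of_submodule_quotient (Submodule.span ℂ {x})

theorem FinCodimLat.spectrum_preconnected [CompleteSpace X] {T : X →L[ℂ] X} (hT : FinCodimLat T)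
    (hinf : ¬ FiniteDimensional ℂ X) : IsPreconnected (spectrum ℂ T) := by
  have hnt : Nontrivial X := by
    by_contra h
    rw [not_nontrivial_iff_subsingleton] at h
    exact hinf inferInstance
  rw [isPreconnected_closed_iff]
  intro t t' ht ht' hsub hn hn'
  by_contra hcon
  rw [not_nonempty_iff_eq_empty] at hcon
  have hcl : IsClosed (spectrum ℂ T) := spectrum.isClosed T
  obtain ⟨e, he, hc, e0, e1⟩ := riesz T (S₁ := spectrum ℂ T ∩ t) (S₂ := spectrum ℂ T ∩ t')
    (hcl.inter ht) (hcl.inter ht') (by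
      rw [Set.disjoint_left]
      intro z h1 h2
      have : z ∈ spectrum ℂ T ∩ (t ∩ t') := ⟨h1.1, h1.2, h2.2⟩
      rw [hcon] at this
      exact this) hn hn' (by
      ext z
      constructor
      · intro hz
        rcases hsub hz with h | h
        · exact Or.inl ⟨hz, h⟩
        · exact Or.inr ⟨hz, h⟩
      · rintro (h | h)
        · exact h.1
        · exact h.1)
  have hee : ∀ x, e (e x) = e x := fun x => congrArg (fun S : X →L[ℂ] X => S x) he
  have hcx : ∀ x, e (T x) = T (e x) := fun x => congrArg (fun S : X →L[ℂ] X => S x) hc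
  have k1 : FiniteDimensional ℂ (X ⧸ LinearMap.ker (e : X →ₗ[ℂ] X)) := by
    refine hT.fd ?_ ?_ ?_
    · exact e.isClosed_ker
    · intro x hx
      rw [LinearMap.mem_ker] at hx ⊢
      change e (T x) = 0
      rw [hcx]
      change e x = 0 at hx
      rw [hx, map_zero]
    · intro h
      apply e1
      ext x
      have h2 : (e x - x) ∈ LinearMap.ker (e : X →ₗ[ℂ] X) := by
        rw [LinearMap.mem_ker]
        change e (e x - x) = 0
        rw [map_sub, hee, sub_self]
      rw [h, Submodule.mem_bot, sub_eq_zero] at h2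
      exact h2
  have k2 : FiniteDimensional ℂ (X ⧸ LinearMap.ker ((1 - e : X →L[ℂ] X) : X →ₗ[ℂ] X)) := by
    refine hT.fd ?_ ?_ ?_
    · exact (1 - e : X →L[ℂ] X).isClosed_ker
    · intro x hx
      rw [LinearMap.mem_ker] at hx ⊢
      change T x - e (T x) = 0
      change x - e x = 0 at hx
      rw [hcx, ← map_sub, hx, map_zero]
    · intro h
      apply e0
      ext x
      have h2 : e x ∈ LinearMap.ker ((1 - e : X →L[ℂ] X) : X →ₗ[ℂ] X) := by
        rw [LinearMap.mem_ker]
        change e x - e (e x) = 0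
        rw [hee, sub_self]
      rw [h, Submodule.mem_bot] at h2
      exact h2
  apply hinf
  let F : X →ₗ[ℂ] (X ⧸ LinearMap.ker (e : X →ₗ[ℂ] X)) ×
      (X ⧸ LinearMap.ker ((1 - e : X →L[ℂ] X) : X →ₗ[ℂ] X)) :=
    (Submodule.mkQ _).prod (Submodule.mkQ _)
  refine FiniteDimensional.of_injective F ?_
  rw [injective_iff_map_eq_zero]
  intro x hx
  have hx1 : Submodule.mkQ (LinearMap.ker (e : X →ₗ[ℂ] X)) x = 0 := congrArg Prod.fst hx
  have hx2 : Submodule.mkQ (LinearMap.ker ((1 - e : X →L[ℂ] X) : X →ₗ[ℂ] X)) x = 0 :=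
    congrArg Prod.snd hx
  rw [Submodule.mkQ_apply, Submodule.Quotient.mk_eq_zero, LinearMap.mem_ker] at hx1 hx2
  change e x = 0 at hx1
  change x - e x = 0 at hx2
  rw [hx1, sub_zero] at hx2
  exact hx2

end Pool.Agent.V110.ES
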