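import Mathlib

/-!
# Operators with a cyclic vector: the set where `T - z` is bounded below and not onto, and the
maximum principle
-/

set_option autoImplicit false

open Filter Topology Set Metric Polynomial

namespace Pool.Agent.V110.ES

variable {X : Type*} [NormedAddCommGroup X] [NormedSpace ℂ X]

/-- `Σ_{i<n} z^(n-1-i) T^i e` -/
noncomputable def gs (T : X →L[ℂ] X) (e : X) (n : ℕ) (z : ℂ) : X :=
  ∑ i ∈ Finset.range n, z ^ (n - 1 - i) • (T ^ i) e

theorem gs_spec (T : X →L[ℂ] X) (e : X) (n : ℕ) (z : ℂ) :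
    T (gs T e n z) - z • gs T e n z = (T ^ n) e - z ^ n • e := by
  have hc : Commute T (z • (1 : X →L[ℂ] X)) := (Commute.one_right T).smul_right z
  have h := hc.mul_geom_sum₂ n
  have h2 := congrArg (fun S : X →L[ℂ] X => S e) h
  simp only [_root_.smul_pow, one_pow, mul_smul_comm, mul_one] at h2
  have h3 : (∑ i ∈ Finset.range n, z ^ (n - 1 - i) • T ^ i : X →L[ℂ] X) e = gs T e n z := by
    rw [sum_apply]
    rfl
  have h4 : ((T - z • (1 : X →L[ℂ] X)) * (∑ i ∈ Finset.range n, z ^ (n - 1 - i) • T ^ i)) e =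
      T (gs T e n z) - z • gs T e n z := by
    rw [ContinuousLinearMap.mul_apply, h3]
    rfl
  rw [← h4]
  exact h2

/-- the vector `((p(T) - p(z)) / (T - z)) e` -/
noncomputable def fp (T : X →L[ℂ] X) (e : X) (p : ℂ[X]) (z : ℂ) : X :=
  ∑ n ∈ Finset.range (p.natDegree + 1), p.coeff n • gs T e n z

theorem fp_spec (T : X →L[ℂ] X) (e : X) (p : ℂ[X]) (z : ℂ) :
    T (fp T e p z) - z • fp T e p z = (aeval T p) e - (p.eval z) • e := by
  unfold fp
  rw [map_sum, Finset.smul_sum, ← Finset.sum_sub_distrib, aeval_eq_sum_range, eval_eq_sum_range,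
    sum_apply, Finset.sum_smul, ← Finset.sum_sub_distrib]
  refine Finset.sum_congr rfl fun n _ => ?_
  rw [map_smul, smul_comm z, ← smul_sub, gs_spec, smul_sub, mul_smul]
  rfl

theorem fp_diff (T : X →L[ℂ] X) (e : X) (p : ℂ[X]) : Differentiable ℂ (fp T e p) := by
  unfold fp gs
  fun_prop

/-- `T - z` is bounded below -/
def BB (T : X →L[ℂ] X) (z : ℂ) : Prop := ∃ c : ℝ, 0 < c ∧ ∀ x, c * ‖x‖ ≤ ‖T x - z • x‖

/-- `T - z` is bounded below and `e` has positive distance from its range -/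
def Om (T : X →L[ℂ] X) (e : X) : Set ℂ :=
  {z | ∃ c d : ℝ, 0 < c ∧ 0 < d ∧ (∀ x, c * ‖x‖ ≤ ‖T x - z • x‖) ∧
    ∀ y, d ≤ ‖e - (T y - z • y)‖}

theorem bound (T : X →L[ℂ] X) (e : X) {c d : ℝ} (hc : 0 < c) (hd : 0 < d) {z : ℂ}
    (h1 : ∀ x, c * ‖x‖ ≤ ‖T x - z • x‖) (h2 : ∀ y, d ≤ ‖e - (T y - z • y)‖) (p : ℂ[X]) :
    ‖fp T e p z‖ ≤ ((1 + ‖e‖ / d) / c) * ‖(aeval T p) e‖ := by
  have hs := fp_spec T e p z
  set f := fp T e p z
  set v := (aeval T p) e
  have hp : ‖p.eval z‖ ≤ ‖v‖ / d := by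
    by_cases h0 : p.eval z = 0
    · rw [h0, norm_zero]; positivity
    · have h3 := h2 (-((p.eval z)⁻¹ • f))
      have h4 : v = (p.eval z) • (e - (T (-((p.eval z)⁻¹ • f)) - z • (-((p.eval z)⁻¹ • f)))) := by
        have e0 : T (-((p.eval z)⁻¹ • f)) - z • (-((p.eval z)⁻¹ • f)) =
            -((p.eval z)⁻¹ • (v - p.eval z • e)) := by
          rw [← hs, map_neg, map_smul, smul_sub, smul_neg, smul_comm z]
          abel
        rw [e0, sub_neg_eq_add, smul_sub, smul_smul, inv_mul_cancel₀ h0, one_smul,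
          add_sub_cancel, smul_smul, mul_inv_cancel₀ h0, one_smul]
      have h5 : ‖v‖ = ‖p.eval z‖ * ‖e - (T (-((p.eval z)⁻¹ • f)) - z • (-((p.eval z)⁻¹ • f)))‖ := by
        conv_lhs => rw [h4, norm_smul]
      rw [le_div_iff₀ hd, h5]
      gcongr
  have h6 : c * ‖f‖ ≤ ‖v‖ + ‖p.eval z‖ * ‖e‖ := by
    refine (h1 f).trans ?_
    rw [hs]
    refine (norm_sub_le _ _).trans ?_
    rw [norm_smul]
  have h7 : ‖p.eval z‖ * ‖e‖ ≤ ‖v‖ / d * ‖e‖ := by gcongr
  rw [div_mul_eq_mul_div, le_div_iff₀ hc]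
  calc ‖f‖ * c = c * ‖f‖ := mul_comm _ _
    _ ≤ ‖v‖ + ‖v‖ / d * ‖e‖ := h6.trans (by linarith)
    _ = (1 + ‖e‖ / d) * ‖v‖ := by ring

theorem om_nhd (T : X →L[ℂ] X) (e : X) {z : ℂ} (hz : z ∈ Om T e) :
    ∃ c d : ℝ, 0 < c ∧ 0 < d ∧ ∀ᶠ w in 𝓝 z, (∀ x, c * ‖x‖ ≤ ‖T x - w • x‖) ∧
      ∀ y, d ≤ ‖e - (T y - w • y)‖ := by
  obtain ⟨c, d, hc, hd, h1, h2⟩ := hz
  refine ⟨c / 2, d / 4, by positivity, by positivity, ?_⟩
  set r : ℝ := min (c / 2) (c * d / (4 * (‖e‖ + 1))) with hr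
  have hr0 : 0 < r := by
    rw [hr]
    have : 0 < ‖e‖ + 1 := by positivity
    positivity
  filter_upwards [ball_mem_nhds z hr0] with w hw
  rw [mem_ball, dist_eq_norm] at hw
  have hw1 : ‖w - z‖ ≤ c / 2 := hw.le.trans (min_le_left _ _)
  have hw2 : ‖w - z‖ ≤ c * d / (4 * (‖e‖ + 1)) := hw.le.trans (min_le_right _ _)
  have key : ∀ x, ‖T x - z • x‖ ≤ ‖T x - w • x‖ + ‖w - z‖ * ‖x‖ := by
    intro x
    have : T x - z • x = (T x - w • x) + (w - z) • x := by rw [sub_smul]; abel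
    rw [this]
    refine (norm_add_le _ _).trans ?_
    rw [norm_smul]
  have hbb : ∀ x, c / 2 * ‖x‖ ≤ ‖T x - w • x‖ := by
    intro x
    have h3 := (h1 x).trans (key x)
    have h4 : ‖w - z‖ * ‖x‖ ≤ c / 2 * ‖x‖ := by gcongr
    linarith
  refine ⟨hbb, fun y => ?_⟩
  have h3 : ‖e - (T y - z • y)‖ ≤ ‖e - (T y - w • y)‖ + ‖w - z‖ * ‖y‖ := by
    have : e - (T y - z • y) = (e - (T y - w • y)) - (w - z) • y := by rw [sub_smul]; abel
    rw [this]
    refine (norm_sub_le _ _).trans ?_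
    rw [norm_smul]
  have h4 : c / 2 * ‖y‖ ≤ ‖e - (T y - w • y)‖ + ‖e‖ := by
    refine (hbb y).trans ?_
    have : T y - w • y = -(e - (T y - w • y)) + e := by abel
    rw [this]
    refine (norm_add_le _ _).trans ?_
    rw [norm_neg]
    simp
  set q := ‖e - (T y - w • y)‖ with hq
  have hq0 : 0 ≤ q := norm_nonneg _
  have h5 := (h2 y).trans h3
  have h6 : ‖w - z‖ * ‖y‖ ≤ q + d / 2 := by
    -- `‖w - z‖ ‖y‖ ≤ ‖w-z‖ (2/c) (q + ‖e‖)`
    have e1 : ‖y‖ ≤ 2 / c * (q + ‖e‖) := by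
      rw [div_mul_eq_mul_div, le_div_iff₀ hc]; linarith
    have e2 : ‖w - z‖ * ‖y‖ ≤ ‖w - z‖ * (2 / c * (q + ‖e‖)) := by gcongr
    have e3 : ‖w - z‖ * (2 / c) ≤ 1 := by
      calc ‖w - z‖ * (2 / c) ≤ c / 2 * (2 / c) := by gcongr
        _ = 1 := by field_simp
    have e4 : ‖w - z‖ * (2 / c) * ‖e‖ ≤ d / 2 := by
      calc ‖w - z‖ * (2 / c) * ‖e‖ ≤ (c * d / (4 * (‖e‖ + 1))) * (2 / c) * (‖e‖ + 1) := by
            gcongr
            linarith
        _ = d / 2 := by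
            have : ‖e‖ + 1 ≠ 0 := by positivity
            field_simp
            ring
    calc ‖w - z‖ * ‖y‖ ≤ ‖w - z‖ * (2 / c * (q + ‖e‖)) := e2
      _ = ‖w - z‖ * (2 / c) * q + ‖w - z‖ * (2 / c) * ‖e‖ := by ring
      _ ≤ 1 * q + d / 2 := by gcongr
      _ = q + d / 2 := by ring
  linarith

theorem om_open (T : X →L[ℂ] X) (e : X) : IsOpen (Om T e) := by
  rw [isOpen_iff_mem_nhds]
  intro z hz
  obtain ⟨c, d, hc, hd, h⟩ := om_nhd T e hz
  filter_upwards [h] with w hw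
  exact ⟨c, d, hc, hd, hw.1, hw.2⟩

/-- uniform bound on compact subsets of `Om` -/
theorem om_compact (T : X →L[ℂ] X) (e : X) {Γ : Set ℂ} (hΓ : IsCompact Γ) (hs : Γ ⊆ Om T e) :
    ∃ C : ℝ, 0 ≤ C ∧ ∀ z ∈ Γ, ∀ p : ℂ[X], ‖fp T e p z‖ ≤ C * ‖(aeval T p) e‖ := by
  refine hΓ.induction_on (p := fun S => ∃ C : ℝ, 0 ≤ C ∧ ∀ z ∈ S, ∀ p : ℂ[X],
    ‖fp T e p z‖ ≤ C * ‖(aeval T p) e‖) ⟨0, le_rfl, by simp⟩ ?_ ?_ ?_
  · rintro s t hst ⟨C, hC, h⟩
    exact ⟨C, hC, fun z hz => h z (hst hz)⟩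
  · rintro s t ⟨C, hC, h⟩ ⟨C', hC', h'⟩
    refine ⟨max C C', hC.trans (le_max_left _ _), fun z hz p => ?_⟩
    rcases hz with hz | hz
    · exact (h z hz p).trans (by gcongr; exact le_max_left _ _)
    · exact (h' z hz p).trans (by gcongr; exact le_max_right _ _)
  · intro z hz
    obtain ⟨c, d, hc, hd, h⟩ := om_nhd T e (hs hz)
    refine ⟨_, mem_nhdsWithin_of_mem_nhds h, (1 + ‖e‖ / d) / c, by positivity, fun w hw p => ?_⟩
    exact bound T e hc hd hw.1 hw.2 p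

/-- **the maximum principle** -/
theorem om_hull (T : X →L[ℂ] X) {e : X} (he : e ≠ 0)
    (hcyc : Dense (Set.range fun p : ℂ[X] => (aeval T p) e))
    (hinj : ∀ z : ℂ, ∀ x : X, T x = z • x → x = 0) {N : Set ℂ} (hN : Bornology.IsBounded N)
    (hf : frontier N ⊆ Om T e) : closure N ⊆ Om T e := by
  have hcf : IsCompact (frontier N) :=
    (hN.closure.subset frontier_subset_closure).isCompact_closure.of_isClosed_subset
      isClosed_frontier subset_closure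
  obtain ⟨C, hC, hb⟩ := om_compact T e hcf hf
  have hb' : ∀ z ∈ closure N, ∀ p : ℂ[X], ‖fp T e p z‖ ≤ C * ‖(aeval T p) e‖ := by
    intro z hz p
    refine Complex.norm_le_of_forall_mem_frontier_norm_le hN ?_ (fun w hw => hb w hw p) hz
    exact (fp_diff T e p).diffContOnCl
  intro z hz
  have hen : 0 < ‖e‖ := norm_pos_iff.2 he
  have hq0 : ∀ q : ℂ[X], (aeval T ((Polynomial.X - Polynomial.C z) * q)) e =
      T ((aeval T q) e) - z • (aeval T q) e := by
    intro q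
    rw [map_mul, map_sub, aeval_X, aeval_C, ContinuousLinearMap.mul_apply,
      Algebra.algebraMap_eq_smul_one]
    rfl
  have h1 : ∀ q : ℂ[X], ‖(aeval T q) e‖ ≤ C * ‖T ((aeval T q) e) - z • (aeval T q) e‖ := by
    intro q
    set p : ℂ[X] := (Polynomial.X - Polynomial.C z) * q with hp
    have h2 := fp_spec T e p z
    have h3 : p.eval z = 0 := by rw [hp]; simp
    rw [h3, zero_smul, sub_zero, hp, hq0 q] at h2
    have h4 : fp T e p z = (aeval T q) e := by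
      rw [← sub_eq_zero]
      refine hinj z _ ?_
      rw [map_sub, smul_sub, ← sub_eq_zero]
      rw [← sub_eq_zero] at h2
      rw [← h2]
      abel
    have h5 := hb' z hz p
    rw [h4, hp, hq0 q] at h5
    exact h5
  have h1' : ∀ x : X, ‖x‖ ≤ C * ‖T x - z • x‖ := by
    intro x
    have hcl : IsClosed {x : X | ‖x‖ ≤ C * ‖T x - z • x‖} :=
      isClosed_le continuous_norm (by fun_prop)
    have hsub : Set.range (fun p : ℂ[X] => (aeval T p) e) ⊆ {x : X | ‖x‖ ≤ C * ‖T x - z • x‖} := by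
      rintro _ ⟨q, rfl⟩
      exact h1 q
    exact hcl.closure_subset_iff.2 hsub (hcyc x)
  have hC0 : 0 < C := by
    rcases hC.lt_or_eq with h | h
    · exact h
    · have := h1' e
      rw [← h, zero_mul] at this
      linarith
  set D : ℝ := 1 + (‖T‖ + ‖z‖) * C with hD
  have hD0 : 0 < D := by rw [hD]; positivity
  have h2 : ∀ q : ℂ[X], ‖e‖ ≤ D * ‖e - (T ((aeval T q) e) - z • (aeval T q) e)‖ := by
    intro q
    set p : ℂ[X] := 1 - (Polynomial.X - Polynomial.C z) * q with hp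
    have h2 := fp_spec T e p z
    have h3 : p.eval z = 1 := by rw [hp]; simp
    have h4 : (aeval T p) e = e - (T ((aeval T q) e) - z • (aeval T q) e) := by
      rw [hp, map_sub, map_one]
      change e - (aeval T ((Polynomial.X - Polynomial.C z) * q)) e = _
      rw [hq0 q]
    have h5 := hb' z hz p
    rw [h3, one_smul] at h2
    rw [← h4]
    have h6 : ‖e‖ ≤ ‖(aeval T p) e‖ + ‖T (fp T e p z) - z • fp T e p z‖ := by
      have : e = (aeval T p) e - (T (fp T e p z) - z • fp T e p z) := by rw [h2]; abel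
      conv_lhs => rw [this]
      exact norm_sub_le _ _
    have h7 : ‖T (fp T e p z) - z • fp T e p z‖ ≤ (‖T‖ + ‖z‖) * ‖fp T e p z‖ := by
      refine (norm_sub_le _ _).trans ?_
      rw [norm_smul, add_mul]
      gcongr
      exact T.le_opNorm _
    calc ‖e‖ ≤ ‖(aeval T p) e‖ + (‖T‖ + ‖z‖) * (C * ‖(aeval T p) e‖) := by
          refine h6.trans ?_
          gcongr
          exact h7.trans (by gcongr)
      _ = D * ‖(aeval T p) e‖ := by rw [hD]; ring
  have h2' : ∀ y : X, ‖e‖ ≤ D * ‖e - (T y - z • y)‖ := by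
    intro y
    have hcl : IsClosed {y : X | ‖e‖ ≤ D * ‖e - (T y - z • y)‖} :=
      isClosed_le continuous_const (by fun_prop)
    have hsub : Set.range (fun p : ℂ[X] => (aeval T p) e) ⊆
        {y : X | ‖e‖ ≤ D * ‖e - (T y - z • y)‖} := by
      rintro _ ⟨q, rfl⟩
      exact h2 q
    exact hcl.closure_subset_iff.2 hsub (hcyc y)
  refine ⟨1 / C, ‖e‖ / D, by positivity, by positivity, fun x => ?_, fun y => ?_⟩
  · rw [div_mul_eq_mul_div, one_mul, div_le_iff₀ hC0, mul_comm]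
    exact h1' x
  · rw [div_le_iff₀ hD0, mul_comm]
    exact h2' y

end Pool.Agent.V110.ES
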