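import Mathlib

/-!
# The plane is unicoherent
-/

set_option autoImplicit false

open Filter Topology Set Metric

namespace Pool.Agent.V110.ES

theorem int_isDiscrete : IsDiscrete (Set.range ((↑) : ℤ → ℝ)) := by
  rw [isDiscrete_iff_discreteTopology]
  exact (Int.isClosedEmbedding_coe_real.isEmbedding.toHomeomorph).symm.isEmbedding.discreteTopology

theorem const_of_exp {S : Set ℂ} (hS : IsPreconnected S) {f : ℂ → ℝ} (hc : ContinuousOn f S)
    (h : ∀ z ∈ S, Circle.exp (f z) = 1) {x y : ℂ} (hx : x ∈ S) (hy : y ∈ S) : f x = f y := by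
  have hpi : (2 * Real.pi) ≠ 0 := by positivity
  have h1 : MapsTo (fun z => f z / (2 * Real.pi)) S (Set.range ((↑) : ℤ → ℝ)) := by
    intro z hz
    obtain ⟨n, hn⟩ := Circle.exp_eq_one.1 (h z hz)
    refine ⟨n, ?_⟩
    simp only [hn]
    field_simp
  have h2 := hS.constant_of_mapsTo int_isDiscrete (hc.div_const _) h1 hx hy
  have h3 : f x / (2 * Real.pi) = f y / (2 * Real.pi) := h2
  field_simp at h3
  exact h3

/-- **Unicoherence of the plane.** If the plane is the union of two closed connected sets, then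
their intersection is connected (possibly empty). -/
theorem unicoherent {A B : Set ℂ} (hA : IsClosed A) (hB : IsClosed B) (cA : IsPreconnected A)
    (cB : IsPreconnected B) (hU : A ∪ B = univ) : IsPreconnected (A ∩ B) := by
  rw [isPreconnected_closed_iff]
  intro t t' ht ht' hsub hn hn'
  by_contra hcon
  rw [not_nonempty_iff_eq_empty] at hcon
  set K₁ := A ∩ B ∩ t with hK₁
  set K₂ := A ∩ B ∩ t' with hK₂
  have c₁ : IsClosed K₁ := (hA.inter hB).inter ht
  have c₂ : IsClosed K₂ := (hA.inter hB).inter ht'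
  have hd : Disjoint K₁ K₂ := by
    rw [Set.disjoint_left]
    intro z h1 h2
    have : z ∈ A ∩ B ∩ (t ∩ t') := ⟨h1.1, h1.2, h2.2⟩
    rw [hcon] at this
    exact this
  obtain ⟨φ, hφ0, hφ1, _⟩ := exists_continuous_zero_one_of_isClosed c₁ c₂ hd
  classical
  set g : ℂ → Circle := fun z =>
    if z ∈ A then Circle.exp (Real.pi * φ z) else Circle.exp (-(Real.pi * φ z)) with hg
  have gA : ∀ z ∈ A, g z = Circle.exp (Real.pi * φ z) := fun z hz => by simp only [hg, if_pos hz]
  have gB : ∀ z ∈ B, g z = Circle.exp (-(Real.pi * φ z)) := by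
    intro z hz
    by_cases hzA : z ∈ A
    · rw [gA z hzA]
      rcases hsub ⟨hzA, hz⟩ with h | h
      · have : φ z = 0 := hφ0 ⟨⟨hzA, hz⟩, h⟩
        rw [this]; simp
      · have : φ z = 1 := hφ1 ⟨⟨hzA, hz⟩, h⟩
        rw [this, mul_one]
        have h2 : -Real.pi = Real.pi - 2 * Real.pi := by ring
        rw [h2, Circle.exp_sub_two_pi]
    · simp only [hg, if_neg hzA]
  have hgc : Continuous g := by
    rw [← continuousOn_univ, ← hU]
    refine ContinuousOn.union_of_isClosed ?_ ?_ hA hB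
    · refine ContinuousOn.congr ?_ gA
      fun_prop
    · refine ContinuousOn.congr ?_ gB
      fun_prop
  obtain ⟨z₁, hz₁⟩ := hn
  obtain ⟨z₂, hz₂⟩ := hn'
  have hz₁0 : φ z₁ = 0 := hφ0 hz₁
  have hz₂1 : φ z₂ = 1 := hφ1 hz₂
  have he : Circle.exp 0 = (⟨g, hgc⟩ : C(ℂ, Circle)) z₁ := by
    change Circle.exp 0 = g z₁
    rw [gA z₁ hz₁.1.1, hz₁0, mul_zero]
  obtain ⟨G, ⟨_, hG⟩, _⟩ := Circle.isCoveringMap_exp.existsUnique_continuousMap_lifts
    (⟨g, hgc⟩ : C(ℂ, Circle)) z₁ 0 he
  have hG' : ∀ z, Circle.exp (G z) = g z := fun z => congrFun hG z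
  have eA := const_of_exp cA (f := fun z => G z - Real.pi * φ z) (by fun_prop) (by
    intro z hz
    rw [Circle.exp_sub, hG' z, gA z hz, div_self']) hz₁.1.1 hz₂.1.1
  have eB := const_of_exp cB (f := fun z => G z + Real.pi * φ z) (by fun_prop) (by
    intro z hz
    rw [Circle.exp_add, hG' z, gB z hz, Circle.exp_neg, inv_mul_cancel]) hz₁.1.2 hz₂.1.2
  simp only [hz₁0, hz₂1, mul_zero, mul_one, sub_zero, add_zero] at eA eB
  have := Real.pi_pos
  linarith

end Pool.Agent.V110.ES
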