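import Mathlib
import Pool.Agent.V110.ES.Basic
import Pool.Agent.V110.ES.Unicoh
import Pool.Agent.V110.ES.Cyc

/-!
# The cyclic case: the set where `T - z` is not bounded below is connected
-/

set_option autoImplicit false

open Filter Topology Set Metric Polynomial

namespace Pool.Agent.V110.ES

theorem far_preconnected {R : ℝ} (hR : 0 ≤ R) : IsPreconnected {z : ℂ | R < ‖z‖} := by
  have h1 : {z : ℂ | R < ‖z‖} =
      (fun p : ℝ × ℝ => (p.1 : ℂ) * Complex.exp (p.2 * Complex.I)) '' (Ioi R ×ˢ univ) := by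
    ext z
    constructor
    · intro hz
      refine ⟨(‖z‖, Complex.arg z), ⟨hz, trivial⟩, ?_⟩
      exact Complex.norm_mul_exp_arg_mul_I z
    · rintro ⟨⟨r, θ⟩, ⟨hr, -⟩, rfl⟩
      simp only [mem_Ioi] at hr
      change R < ‖(r : ℂ) * Complex.exp (θ * Complex.I)‖
      rw [norm_mul, Complex.norm_exp_ofReal_mul_I, mul_one, Complex.norm_real,
        Real.norm_of_nonneg (hR.trans hr.le)]
      exact hr
  rw [h1]
  apply IsPreconnected.image
  · exact isPreconnected_Ioi.prod isPreconnected_univ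
  · fun_prop

/-- a set of the plane whose complement is bounded, such that every bounded set with frontier off
it is disjoint from it, is preconnected -/
theorem compl_preconnected {A : Set ℂ} (hA : IsClosed A) (hb : Bornology.IsBounded Aᶜ)
    (h : ∀ N : Set ℂ, Bornology.IsBounded N → frontier N ⊆ Aᶜ → closure N ⊆ Aᶜ) :
    IsPreconnected A := by
  obtain ⟨R0, hR0⟩ := hb.subset_closedBall (0 : ℂ)
  set R : ℝ := max R0 0 with hR
  have hR00 : 0 ≤ R := le_max_right _ _
  have hfar : {z : ℂ | R < ‖z‖} ⊆ A := by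
    intro z hz
    by_contra hzA
    have h1 := hR0 hzA
    rw [mem_closedBall, dist_zero_right] at h1
    have h2 : R0 ≤ R := le_max_left _ _
    have h3 : R < ‖z‖ := hz
    linarith
  -- the main step: no nonempty compact clopen part
  have key : ∀ A₁ A₂ : Set ℂ, IsClosed A₁ → IsClosed A₂ → A₁ ∪ A₂ = A → Disjoint A₁ A₂ →
      {z : ℂ | R < ‖z‖} ⊆ A₁ → A₂ = ∅ := by
    intro A₁ A₂ c₁ c₂ hu hd hf
    by_contra hne
    have hne' : A₂.Nonempty := nonempty_iff_ne_empty.2 hne
    have hb2 : A₂ ⊆ closedBall 0 R := by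
      intro z hz
      rw [mem_closedBall, dist_zero_right]
      by_contra hcon
      exact Set.disjoint_left.1 hd (hf (not_le.1 hcon)) hz
    have hk2 : IsCompact A₂ := (isCompact_closedBall 0 R).of_isClosed_subset c₂ hb2
    obtain ⟨δ, hδ, hdis⟩ := hd.symm.exists_cthickenings hk2 c₁
    have hNb : Bornology.IsBounded (thickening δ A₂) := (hk2.isBounded).thickening
    have hfr : frontier (thickening δ A₂) ⊆ Aᶜ := by
      intro z hz hzA
      have h1 := frontier_thickening_subset A₂ hz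
      have h1' : infEDist z A₂ = ENNReal.ofReal δ := h1
      rw [← hu] at hzA
      rcases hzA with h2 | h2
      · have h3 : z ∈ cthickening δ A₂ := by
          rw [mem_cthickening_iff, h1']
        exact Set.disjoint_left.1 hdis h3 (self_subset_cthickening _ h2)
      · rw [infEDist_zero_of_mem h2] at h1'
        have : ENNReal.ofReal δ = 0 := h1'.symm
        rw [ENNReal.ofReal_eq_zero] at this
        linarith
    have hcl := h _ hNb hfr
    obtain ⟨z, hz⟩ := hne'
    have h4 : z ∈ closure (thickening δ A₂) := subset_closure (self_subset_thickening hδ _ hz)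
    have h5 : z ∈ A := by rw [← hu]; exact Or.inr hz
    exact hcl h4 h5
  rw [isPreconnected_closed_iff]
  intro t t' ht ht' hsub hn hn'
  by_contra hcon
  rw [not_nonempty_iff_eq_empty] at hcon
  have hd : Disjoint (A ∩ t) (A ∩ t') := by
    rw [Set.disjoint_left]
    intro z h1 h2
    have : z ∈ A ∩ (t ∩ t') := ⟨h1.1, h1.2, h2.2⟩
    rw [hcon] at this
    exact this
  have hu : (A ∩ t) ∪ (A ∩ t') = A := by
    ext z
    constructor
    · rintro (h | h)
      · exact h.1
      · exact h.1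
    · intro hz
      rcases hsub hz with h | h
      · exact Or.inl ⟨hz, h⟩
      · exact Or.inr ⟨hz, h⟩
  have hor : {z : ℂ | R < ‖z‖} ⊆ A ∩ t ∨ {z : ℂ | R < ‖z‖} ⊆ A ∩ t' := by
    have h1 := (isPreconnected_closed_iff.1 (far_preconnected hR00)) t t' ht ht'
      (hfar.trans hsub)
    by_cases hx : ({z : ℂ | R < ‖z‖} ∩ t).Nonempty
    · by_cases hy : ({z : ℂ | R < ‖z‖} ∩ t').Nonempty
      · obtain ⟨z, hz1, hz2⟩ := h1 hx hy
        have : z ∈ A ∩ (t ∩ t') := ⟨hfar hz1, hz2⟩
        rw [hcon] at this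
        exact this.elim
      · left
        intro z hz
        refine ⟨hfar hz, ?_⟩
        rcases hsub (hfar hz) with h | h
        · exact h
        · exact (hy ⟨z, hz, h⟩).elim
    · right
      intro z hz
      refine ⟨hfar hz, ?_⟩
      rcases hsub (hfar hz) with h | h
      · exact (hx ⟨z, hz, h⟩).elim
      · exact h
  rcases hor with h1 | h1
  · have := key (A ∩ t) (A ∩ t') (hA.inter ht) (hA.inter ht') hu hd h1
    rw [this] at hn'
    exact not_nonempty_empty hn'
  · have := key (A ∩ t') (A ∩ t) (hA.inter ht') (hA.inter ht) (by rw [union_comm]; exact hu)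
      hd.symm h1
    rw [this] at hn
    exact not_nonempty_empty hn

variable {X : Type*} [NormedAddCommGroup X] [NormedSpace ℂ X]

theorem bb_of_notMem {T : X →L[ℂ] X} {z : ℂ} (h : z ∉ spectrum ℂ T) : BB T z := by
  rw [spectrum.notMem_iff] at h
  obtain ⟨u, hu⟩ := h
  have h1 : ∀ x, (↑u⁻¹ : X →L[ℂ] X) (T x - z • x) = -x := by
    intro x
    have e1 : T x - z • x = -((u : X →L[ℂ] X) x) := by
      rw [hu, Algebra.algebraMap_eq_smul_one]
      change _ = -(z • x - T x)
      abel
    rw [e1, map_neg]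
    have e2 : (↑u⁻¹ : X →L[ℂ] X) * (u : X →L[ℂ] X) = 1 := Units.inv_mul u
    have e3 := congrArg (fun S : X →L[ℂ] X => S x) e2
    change (↑u⁻¹ : X →L[ℂ] X) ((u : X →L[ℂ] X) x) = x at e3
    rw [e3]
  refine ⟨1 / (‖(↑u⁻¹ : X →L[ℂ] X)‖ + 1), by positivity, fun x => ?_⟩
  rw [div_mul_eq_mul_div, one_mul, div_le_iff₀ (by positivity)]
  have h2 := (↑u⁻¹ : X →L[ℂ] X).le_opNorm (T x - z • x)
  rw [h1, norm_neg] at h2
  have h3 : 0 ≤ ‖T x - z • x‖ := norm_nonneg _
  nlinarith

/-- the operator `T - z` -/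
noncomputable def sh (T : X →L[ℂ] X) (z : ℂ) : X →L[ℂ] X := T - z • (1 : X →L[ℂ] X)

theorem sh_apply (T : X →L[ℂ] X) (z : ℂ) (x : X) : sh T z x = T x - z • x := rfl

theorem closed_range [CompleteSpace X] {T : X →L[ℂ] X} {z : ℂ} (h : BB T z) :
    IsClosed (LinearMap.range (sh T z : X →ₗ[ℂ] X) : Set X) := by
  obtain ⟨c, hc, h⟩ := h
  have h1 : AntilipschitzWith (Real.toNNReal (1 / c)) (sh T z) := by
    refine AddMonoidHomClass.antilipschitz_of_bound (sh T z) ?_
    intro x
    rw [Real.coe_toNNReal _ (by positivity), div_mul_eq_mul_div, one_mul, le_div_iff₀ hc, mul_comm]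
    exact h x
  have h2 := h1.isClosed_range (sh T z).uniformContinuous
  convert h2 using 1
  ext x
  simp

theorem range_inv (T : X →L[ℂ] X) (z : ℂ) :
    ∀ x ∈ LinearMap.range (sh T z : X →ₗ[ℂ] X), T x ∈ LinearMap.range (sh T z : X →ₗ[ℂ] X) := by
  rintro _ ⟨y, rfl⟩
  refine ⟨T y, ?_⟩
  change T (T y) - z • T y = T (T y - z • y)
  rw [map_sub, map_smul]

theorem notMem_of_surj [CompleteSpace X] {T : X →L[ℂ] X} {z : ℂ} (h : BB T z)
    (hs : LinearMap.range (sh T z : X →ₗ[ℂ] X) = ⊤) : z ∉ spectrum ℂ T := by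
  obtain ⟨c, hc, h⟩ := h
  have hinj : LinearMap.ker (sh T z : X →ₗ[ℂ] X) = ⊥ := by
    rw [LinearMap.ker_eq_bot']
    intro x hx
    have h1 := h x
    change T x - z • x = 0 at hx
    rw [hx, norm_zero] at h1
    have h2 : ‖x‖ ≤ 0 := by
      by_contra hcon
      rw [not_le] at hcon
      have : 0 < c * ‖x‖ := by positivity
      linarith
    exact norm_le_zero_iff.1 h2
  let E := ContinuousLinearEquiv.ofBijective (sh T z) hinj hs
  rw [spectrum.notMem_iff]
  have h3 : IsUnit (sh T z) := by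
    refine ⟨⟨(sh T z), (E.symm : X →L[ℂ] X), ?_, ?_⟩, rfl⟩
    · ext x
      exact E.apply_symm_apply x
    · ext x
      exact E.symm_apply_apply x
  have h4 : algebraMap ℂ (X →L[ℂ] X) z - T = -(sh T z) := by
    rw [Algebra.algebraMap_eq_smul_one]
    unfold sh
    abel
  rw [h4]
  exact h3.neg

theorem om_of_bb [CompleteSpace X] {T : X →L[ℂ] X} {e : X}
    (hcyc : Dense (Set.range fun p : ℂ[X] => (aeval T p) e)) {z : ℂ} (h : BB T z)
    (hz : z ∈ spectrum ℂ T) : z ∈ Om T e := by
  have hcl := closed_range h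
  have he : e ∉ LinearMap.range (sh T z : X →ₗ[ℂ] X) := by
    intro he
    apply notMem_of_surj h _ hz
    rw [eq_top_iff]
    intro x _
    have h1 : Set.range (fun p : ℂ[X] => (aeval T p) e) ⊆
        (LinearMap.range (sh T z : X →ₗ[ℂ] X) : Set X) := by
      rintro _ ⟨p, rfl⟩
      change (aeval T p) e ∈ LinearMap.range (sh T z : X →ₗ[ℂ] X)
      induction p using Polynomial.induction_on' with
      | add p q hp hq =>
        rw [map_add]
        exact Submodule.add_mem _ hp hq
      | monomial n a =>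
        rw [aeval_monomial, Algebra.algebraMap_eq_smul_one]
        change (a • (1 : X →L[ℂ] X)) ((T ^ n) e) ∈ _
        change a • ((T ^ n) e) ∈ _
        refine Submodule.smul_mem _ _ ?_
        induction n with
        | zero => simpa using he
        | succ n ih =>
          rw [pow_succ']
          exact range_inv T z _ ih
    have h2 := hcl.closure_subset_iff.2 h1 (hcyc x)
    exact h2
  obtain ⟨c, hc, hb⟩ := h
  have hne : (LinearMap.range (sh T z : X →ₗ[ℂ] X) : Set X).Nonempty := ⟨0, Submodule.zero_mem _⟩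
  have hd : 0 < infDist e (LinearMap.range (sh T z : X →ₗ[ℂ] X) : Set X) :=
    (hcl.notMem_iff_infDist_pos hne).1 he
  refine ⟨c, _, hc, hd, hb, fun y => ?_⟩
  have h3 : sh T z y ∈ (LinearMap.range (sh T z : X →ₗ[ℂ] X) : Set X) := ⟨y, rfl⟩
  have h4 := infDist_le_dist_of_mem (x := e) h3
  rw [dist_eq_norm, sh_apply] at h4
  exact h4

theorem om_sub_spectrum {T : X →L[ℂ] X} {e : X} {z : ℂ} (h : z ∈ Om T e) : z ∈ spectrum ℂ T := by
  by_contra hz
  rw [spectrum.notMem_iff] at hz
  obtain ⟨u, hu⟩ := hz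
  obtain ⟨c, d, hc, hd, h1, h2⟩ := h
  have h3 := h2 (-((↑u⁻¹ : X →L[ℂ] X) e))
  have e2 : (u : X →L[ℂ] X) * (↑u⁻¹ : X →L[ℂ] X) = 1 := Units.mul_inv u
  have e3 := congrArg (fun S : X →L[ℂ] X => S e) e2
  change (u : X →L[ℂ] X) ((↑u⁻¹ : X →L[ℂ] X) e) = e at e3
  rw [hu, Algebra.algebraMap_eq_smul_one] at e3
  change z • ((↑u⁻¹ : X →L[ℂ] X) e) - T ((↑u⁻¹ : X →L[ℂ] X) e) = e at e3
  have e4 : T (-((↑u⁻¹ : X →L[ℂ] X) e)) - z • (-((↑u⁻¹ : X →L[ℂ] X) e)) = e := by
    rw [map_neg, smul_neg]
    refine Eq.trans ?_ e3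
    abel
  rw [e4, sub_self, norm_zero] at h3
  linarith

/-- **The cyclic case** -/
theorem cyclic_conn [CompleteSpace X] {T : X →L[ℂ] X} (hT : FinCodimLat T)
    (hinf : ¬ FiniteDimensional ℂ X) {e : X} (he : e ≠ 0)
    (hcyc : Dense (Set.range fun p : ℂ[X] => (aeval T p) e)) :
    IsConnected {z : ℂ | ¬ BB T z} := by
  have hnt : Nontrivial X := ⟨e, 0, he⟩
  have hinj : ∀ z : ℂ, ∀ x : X, T x = z • x → x = 0 := hT.inj hinf
  have hsp := hT.spectrum_preconnected hinf
  have hcl : IsClosed (spectrum ℂ T) := spectrum.isClosed T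
  have hkc : IsCompact (spectrum ℂ T) := spectrum.isCompact T
  have hset : {z : ℂ | ¬ BB T z} = (Om T e)ᶜ ∩ spectrum ℂ T := by
    ext z
    constructor
    · intro hz
      refine ⟨fun h => hz ?_, ?_⟩
      · obtain ⟨c, d, hc, hd, h1, h2⟩ := h
        exact ⟨c, hc, h1⟩
      · by_contra h
        exact hz (bb_of_notMem h)
    · rintro ⟨h1, h2⟩ h3
      exact h1 (om_of_bb hcyc h3 h2)
  have hOc : IsPreconnected (Om T e)ᶜ := by
    refine compl_preconnected (om_open T e).isClosed_compl ?_ ?_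
    · rw [compl_compl]
      exact hkc.isBounded.subset fun z hz => om_sub_spectrum hz
    · intro N hN hf
      rw [compl_compl] at hf ⊢
      exact om_hull T he hcyc hinj hN hf
  refine ⟨?_, ?_⟩
  · -- nonempty
    by_contra hne
    rw [not_nonempty_iff_eq_empty] at hne
    have h1 : ∀ z : ℂ, BB T z := by
      intro z
      by_contra h
      have : z ∈ {z : ℂ | ¬ BB T z} := h
      rw [hne] at this
      exact this
    have h2 : spectrum ℂ T ⊆ Om T e := fun z hz => om_of_bb hcyc (h1 z) hz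
    have h3 : spectrum ℂ T = Om T e := h2.antisymm fun z hz => om_sub_spectrum hz
    have h4 : IsClopen (spectrum ℂ T) := ⟨hcl, by rw [h3]; exact om_open T e⟩
    rcases isClopen_iff.1 h4 with h5 | h5
    · have := spectrum.nonempty T
      rw [h5] at this
      exact not_nonempty_empty this
    · rw [h5] at hkc
      exact noncompact_univ ℂ hkc
  · rw [hset]
    refine unicoherent (om_open T e).isClosed_compl hcl hOc hsp ?_
    rw [eq_univ_iff_forall]
    intro z
    by_cases h : z ∈ Om T e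
    · exact Or.inr (om_sub_spectrum h)
    · exact Or.inl h

end Pool.Agent.V110.ES
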