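import Mathlib
import Pool.Agent.V110.ES.Conn

/-!
# The general case
-/

set_option autoImplicit false

open Filter Topology Set Metric Polynomial

namespace Pool.Agent.V110.ES

variable {X : Type*} [NormedAddCommGroup X] [NormedSpace ℂ X]

theorem bb_of_closed_range [CompleteSpace X] {T : X →L[ℂ] X} {z : ℂ}
    (hinj : ∀ x : X, T x = z • x → x = 0)
    (h : IsClosed (LinearMap.range (sh T z : X →ₗ[ℂ] X) : Set X)) : BB T z := by
  have h1 : Function.Injective (sh T z) := by
    rw [injective_iff_map_eq_zero]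
    intro x hx
    rw [sh_apply, sub_eq_zero] at hx
    exact hinj x hx
  have h2 : IsClosed (Set.range (sh T z)) := by
    convert h using 1
    ext x
    simp
  obtain ⟨K, hK⟩ := ContinuousLinearMap.antilipschitz_of_injective_of_isClosed_range _ h1 h2
  refine ⟨1 / ((K : ℝ) + 1), by positivity, fun x => ?_⟩
  rw [div_mul_eq_mul_div, one_mul, div_le_iff₀ (by positivity)]
  have h3 : ‖x‖ ≤ K * ‖sh T z x‖ := by
    have := hK.le_mul_dist x 0
    simpa using this
  rw [sh_apply] at h3
  have h4 : 0 ≤ ‖T x - z • x‖ := norm_nonneg _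
  nlinarith

section restr

variable {T : X →L[ℂ] X} {M : Submodule ℂ X}

/-- the restriction of `T` to the invariant subspace `M` -/
noncomputable def rs (T : X →L[ℂ] X) (M : Submodule ℂ X) (hi : ∀ x ∈ M, T x ∈ M) : M →L[ℂ] M :=
  (T.comp M.subtypeL).codRestrict M fun x => hi x x.2

theorem rs_coe (hi : ∀ x ∈ M, T x ∈ M) (x : M) : ((rs T M hi x : M) : X) = T x := rfl

theorem rs_fd (hT : FinCodimLat T) (hM : IsClosed (M : Set X)) (hi : ∀ x ∈ M, T x ∈ M) :
    FinCodimLat (rs T M hi) := by
  intro N hN hNi hN0 _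
  have h1 : IsClosed ((N.map M.subtype : Submodule ℂ X) : Set X) := by
    have := hM.isClosedEmbedding_subtypeVal.isClosedMap _ hN
    rw [Submodule.map_coe]
    exact this
  have h2 : ∀ x ∈ N.map M.subtype, T x ∈ N.map M.subtype := by
    rintro _ ⟨y, hy, rfl⟩
    exact ⟨rs T M hi y, hNi y hy, rfl⟩
  have h3 : N.map M.subtype ≠ ⊥ := by
    intro h
    apply hN0
    rw [eq_bot_iff]
    intro x hx
    have h5 : (x : X) ∈ N.map M.subtype := ⟨x, hx, rfl⟩
    rw [h, Submodule.mem_bot] at h5
    rw [Submodule.mem_bot]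
    exact Subtype.ext h5
  have h4 := hT.fd h1 h2 h3
  refine FiniteDimensional.of_injective (Submodule.mapQ N (N.map M.subtype) M.subtype
    (Submodule.le_comap_map _ _)) ?_
  rw [injective_iff_map_eq_zero]
  intro x hx
  obtain ⟨y, rfl⟩ := Submodule.mkQ_surjective N x
  rw [Submodule.mkQ_apply, Submodule.mapQ_apply, Submodule.Quotient.mk_eq_zero] at hx
  obtain ⟨w, hw, hwy⟩ := hx
  have : w = y := Subtype.ext hwy
  rw [Submodule.mkQ_apply, Submodule.Quotient.mk_eq_zero, ← this]
  exact hw

theorem rs_bb [CompleteSpace X] [CompleteSpace M] (hT : FinCodimLat T)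
    (hinf : ¬ FiniteDimensional ℂ X)
    (hfd : FiniteDimensional ℂ (X ⧸ M))
    (hi : ∀ x ∈ M, T x ∈ M) (z : ℂ) : BB (rs T M hi) z ↔ BB T z := by
  constructor
  · intro h
    refine bb_of_closed_range (hT.inj hinf z) ?_
    have h1 := closed_range h
    have hM : IsClosed (M : Set X) :=
      IsComplete.isClosed (completeSpace_coe_iff_isComplete.1 ‹CompleteSpace M›)
    have h2 : IsClosed ((M.map (sh T z : X →ₗ[ℂ] X) : Submodule ℂ X) : Set X) := by
      have h3 := hM.isClosedEmbedding_subtypeVal.isClosedMap _ h1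
      convert h3 using 1
      ext x
      constructor
      · rintro ⟨y, hy, rfl⟩
        exact ⟨sh (rs T M hi) z ⟨y, hy⟩, ⟨⟨y, hy⟩, rfl⟩, rfl⟩
      · rintro ⟨_, ⟨y, rfl⟩, rfl⟩
        exact ⟨(y : X), y.2, rfl⟩
    have : M.CoFG := hfd
    exact LinearMap.isClosed_range_of_isClosed_map_of_finiteDimensional_quotient h2
  · rintro ⟨c, hc, h⟩
    exact ⟨c, hc, fun x => h x⟩

end restr

/-- **The set where `T - z` is not bounded below is connected** -/
theorem bb_conn [CompleteSpace X] {T : X →L[ℂ] X} (hT : FinCodimLat T)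
    (hinf : ¬ FiniteDimensional ℂ X) : IsConnected {z : ℂ | ¬ BB T z} := by
  have hnt : Nontrivial X := by
    by_contra h
    rw [not_nontrivial_iff_subsingleton] at h
    exact hinf inferInstance
  obtain ⟨e, he⟩ := exists_ne (0 : X)
  let P : ℂ[X] →ₗ[ℂ] X :=
    { toFun := fun p => (aeval T p) e
      map_add' := fun p q => by rw [map_add]; rfl
      map_smul' := fun c p => by rw [map_smul]; rfl }
  set M : Submodule ℂ X := (LinearMap.range P).topologicalClosure with hMdef
  have hM : IsClosed (M : Set X) := Submodule.isClosed_topologicalClosure _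
  have hsub : LinearMap.range P ≤ M := Submodule.le_topologicalClosure _
  have heM : e ∈ M := hsub ⟨1, by change (aeval T (1 : ℂ[X])) e = e; rw [map_one]; rfl⟩
  have hPX : ∀ p : ℂ[X], T ((aeval T p) e) = (aeval T (Polynomial.X * p)) e := by
    intro p
    rw [map_mul, aeval_X]
    rfl
  have hi : ∀ x ∈ M, T x ∈ M := by
    intro x hx
    have h1 : (M : Set X) ⊆ T ⁻¹' (M : Set X) := by
      rw [hMdef, Submodule.topologicalClosure_coe]
      refine closure_minimal ?_ ?_
      · rintro _ ⟨p, rfl⟩
        rw [← Submodule.topologicalClosure_coe]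
        change T ((aeval T p) e) ∈ M
        rw [hPX]
        exact hsub ⟨_, rfl⟩
      · exact isClosed_closure.preimage T.continuous
    exact h1 hx
  have hM0 : M ≠ ⊥ := by
    intro h
    rw [h, Submodule.mem_bot] at heM
    exact he heM
  have hfd : FiniteDimensional ℂ (X ⧸ M) := hT.fd hM hi hM0
  have hMinf : ¬ FiniteDimensional ℂ M := fun h => hinf (Module.Finite.of_submodule_quotient M)
  have hMc : CompleteSpace M := hM.completeSpace_coe
  set e' : M := ⟨e, heM⟩ with he'
  have he'0 : e' ≠ 0 := by
    intro h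
    apply he
    exact congrArg Subtype.val h
  have hpow : ∀ (n : ℕ) (x : M), (((rs T M hi) ^ n) x : X) = (T ^ n) x := by
    intro n
    induction n with
    | zero => intro x; rfl
    | succ n ih =>
      intro x
      rw [pow_succ', pow_succ']
      change ((rs T M hi (((rs T M hi) ^ n) x) : M) : X) = T ((T ^ n) x)
      rw [rs_coe, ih]
  have hpoly : ∀ p : ℂ[X], (((aeval (rs T M hi) p) e' : M) : X) = (aeval T p) e := by
    intro p
    induction p using Polynomial.induction_on' with
    | add p q hp hq =>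
      rw [map_add, map_add]
      change (((aeval (rs T M hi) p) e' + (aeval (rs T M hi) q) e' : M) : X) =
        (aeval T p) e + (aeval T q) e
      rw [Submodule.coe_add, hp, hq]
    | monomial n a =>
      rw [aeval_monomial, aeval_monomial, Algebra.algebraMap_eq_smul_one,
        Algebra.algebraMap_eq_smul_one]
      change ((a • (((rs T M hi) ^ n) e') : M) : X) = a • ((T ^ n) e)
      rw [Submodule.coe_smul, hpow]
  have hcyc : Dense (Set.range fun p : ℂ[X] => (aeval (rs T M hi) p) e') := by
    rw [Subtype.dense_iff]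
    intro x hx
    have h1 : x ∈ closure (LinearMap.range P : Set X) := by
      rw [← Submodule.topologicalClosure_coe]
      exact hx
    refine closure_mono ?_ h1
    rintro _ ⟨p, rfl⟩
    exact ⟨_, ⟨p, rfl⟩, hpoly p⟩
  have hmain := cyclic_conn (rs_fd hT hM hi) hMinf he'0 hcyc
  have hset : {z : ℂ | ¬ BB (rs T M hi) z} = {z : ℂ | ¬ BB T z} := by
    ext z
    change (¬ BB (rs T M hi) z) ↔ ¬ BB T z
    rw [rs_bb hT hinf hfd hi z]
  rw [hset] at hmain
  exact hmain

/-- The **essential spectrum** of `T`: the spectrum of the image of `T` in the algebra of bounded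
operators modulo the compact ones. A number `z` is not in it if and only if `T - z` has an inverse
modulo compact operators. -/
def essSpec (T : X →L[ℂ] X) : Set ℂ :=
  {z | ¬ ∃ S : X →L[ℂ] X,
    IsCompactOperator (S ∘L (T - z • ContinuousLinearMap.id ℂ X) - ContinuousLinearMap.id ℂ X) ∧
    IsCompactOperator ((T - z • ContinuousLinearMap.id ℂ X) ∘L S - ContinuousLinearMap.id ℂ X)}

theorem essSpec_eq [CompleteSpace X] {T : X →L[ℂ] X} (hT : FinCodimLat T)
    (hinf : ¬ FiniteDimensional ℂ X) : essSpec T = {z : ℂ | ¬ BB T z} := by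
  have hnt : Nontrivial X := by
    by_contra h
    rw [not_nontrivial_iff_subsingleton] at h
    exact hinf inferInstance
  ext z
  change (¬ _) ↔ ¬ _
  rw [not_iff_not]
  have hinj : ∀ x : X, T x = z • x → x = 0 := hT.inj hinf z
  constructor
  · rintro ⟨S, hS, -⟩
    by_contra hbb
    -- a sequence of unit vectors with `(T - z) x n → 0`
    have h1 : ∀ n : ℕ, ∃ x : X, ‖x‖ = 1 ∧ ‖T x - z • x‖ < 1 / ((n : ℝ) + 1) := by
      intro n
      by_contra hcon
      apply hbb
      refine ⟨1 / ((n : ℝ) + 1), by positivity, fun x => ?_⟩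
      by_cases hx : x = 0
      · rw [hx]; simp
      · have hx0 : 0 < ‖x‖ := norm_pos_iff.2 hx
        push Not at hcon
        have h2 := hcon (((‖x‖⁻¹ : ℝ) : ℂ) • x) (by
          rw [norm_smul, Complex.norm_real, norm_inv, norm_norm, inv_mul_cancel₀ hx0.ne'])
        have h3 : T (((‖x‖⁻¹ : ℝ) : ℂ) • x) - z • (((‖x‖⁻¹ : ℝ) : ℂ) • x) =
            ((‖x‖⁻¹ : ℝ) : ℂ) • (T x - z • x) := by
          rw [map_smul, smul_comm z, smul_sub]
        rw [h3, norm_smul, Complex.norm_real, norm_inv, norm_norm] at h2
        rw [← div_eq_inv_mul, le_div_iff₀ hx0] at h2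
        exact h2
    choose x hx1 hx2 using h1
    have hlim : Tendsto (fun n => T (x n) - z • x n) atTop (𝓝 0) := by
      rw [tendsto_zero_iff_norm_tendsto_zero]
      refine squeeze_zero (fun n => norm_nonneg _) (fun n => (hx2 n).le) ?_
      exact tendsto_one_div_add_atTop_nhds_zero_nat
    obtain ⟨K, hK, hKs⟩ := hS.image_closedBall_subset_compact (r := 1)
    have hmem : ∀ n, (S ∘L (T - z • ContinuousLinearMap.id ℂ X) - ContinuousLinearMap.id ℂ X)
        (x n) ∈ K := by
      intro n
      apply hKs
      refine ⟨x n, ?_, rfl⟩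
      rw [mem_closedBall, dist_zero_right, hx1 n]
    obtain ⟨y, -, φ, hφ, hy⟩ := hK.tendsto_subseq hmem
    have hy' : Tendsto (fun n => S (T (x (φ n)) - z • x (φ n)) - x (φ n)) atTop (𝓝 y) := hy
    have hS0 : Tendsto (fun n => S (T (x (φ n)) - z • x (φ n))) atTop (𝓝 0) := by
      have h3 := (S.continuous.tendsto 0).comp (hlim.comp hφ.tendsto_atTop)
      rw [map_zero] at h3
      exact h3
    have hxl : Tendsto (fun n => x (φ n)) atTop (𝓝 (-y)) := by
      have h4 := hS0.sub hy'
      rw [zero_sub] at h4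
      refine h4.congr fun n => ?_
      abel
    have h5 : T (-y) = z • (-y) := by
      have h6 : Tendsto (fun n => T (x (φ n)) - z • x (φ n)) atTop (𝓝 (T (-y) - z • (-y))) :=
        ((T.continuous.tendsto _).comp hxl).sub (hxl.const_smul z)
      have h7 := tendsto_nhds_unique h6 (hlim.comp hφ.tendsto_atTop)
      exact sub_eq_zero.1 h7
    have h8 := hinj _ h5
    have h9 : Tendsto (fun n => ‖x (φ n)‖) atTop (𝓝 ‖-y‖) := hxl.norm
    rw [h8, norm_zero] at h9
    have h10 : Tendsto (fun n => ‖x (φ n)‖) atTop (𝓝 1) := by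
      simp only [hx1]
      exact tendsto_const_nhds
    have := tendsto_nhds_unique h9 h10
    norm_num at this
  · intro hbb
    have hcl := closed_range hbb
    set M := LinearMap.range (sh T z : X →ₗ[ℂ] X) with hM
    have hMi := range_inv T z
    have hM0 : M ≠ ⊥ := by
      intro h
      obtain ⟨x, hx⟩ := exists_ne (0 : X)
      apply hx
      apply hinj
      have h1 : sh T z x ∈ M := ⟨x, rfl⟩
      rw [h, Submodule.mem_bot, sh_apply, sub_eq_zero] at h1
      exact h1
    have hfd : FiniteDimensional ℂ (X ⧸ M) := hT.fd hcl hMi hM0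
    have : M.CoFG := hfd
    obtain ⟨P, hP⟩ := Submodule.ClosedComplemented.of_finiteDimensional_quotient hcl
    have hinj' : Function.Injective (sh T z) := by
      rw [injective_iff_map_eq_zero]
      intro x hx
      rw [sh_apply, sub_eq_zero] at hx
      exact hinj x hx
    have h2 : IsClosed (Set.range (sh T z)) := by
      convert hcl using 1
      ext x
      simp [hM]
    let E := (sh T z).equivRange hinj' h2
    have hE : ∀ x, ((E x : _) : X) = sh T z x := fun x => rfl
    have hEs : ∀ w, sh T z (E.symm w) = (w : X) := by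
      intro w
      rw [← hE, E.apply_symm_apply]
    let S : X →L[ℂ] X := (E.symm : _ →L[ℂ] X) ∘L P
    have hS1 : ∀ x, S (sh T z x) = x := by
      intro x
      have h3 : P (sh T z x) = E x := hP ⟨sh T z x, ⟨x, rfl⟩⟩
      change E.symm (P (sh T z x)) = x
      rw [h3, E.symm_apply_apply]
    have hS2 : ∀ x, sh T z (S x) = (P x : X) := fun x => hEs _
    refine ⟨S, ?_, ?_⟩
    · have h3 : S ∘L (T - z • ContinuousLinearMap.id ℂ X) - ContinuousLinearMap.id ℂ X = 0 := by
        ext x
        change S (sh T z x) - x = 0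
        rw [hS1, sub_self]
      rw [h3]
      exact isCompactOperator_zero
    · set F : X →L[ℂ] X := (T - z • ContinuousLinearMap.id ℂ X) ∘L S -
        ContinuousLinearMap.id ℂ X with hF
      have hFx : ∀ x, F x = (P x : X) - x := by
        intro x
        change sh T z (S x) - x = _
        rw [hS2]
      have hker : ∀ x, F x ∈ LinearMap.ker (P : X →ₗ[ℂ] M) := by
        intro x
        rw [LinearMap.mem_ker]
        change P (F x) = 0
        rw [hFx, map_sub, hP, sub_self]
      have hfk : FiniteDimensional ℂ (LinearMap.ker (P : X →ₗ[ℂ] M)) := by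
        refine FiniteDimensional.of_injective
          ((Submodule.mkQ M).comp (LinearMap.ker (P : X →ₗ[ℂ] M)).subtype) ?_
        rw [injective_iff_map_eq_zero]
        intro x hx
        rw [LinearMap.comp_apply, Submodule.mkQ_apply, Submodule.Quotient.mk_eq_zero] at hx
        have h4 : P (x : X) = ⟨(x : X), hx⟩ := hP ⟨(x : X), hx⟩
        have h5 : P (x : X) = 0 := x.2
        rw [h5] at h4
        have := congrArg Subtype.val h4
        exact Subtype.ext this.symm
      have hpr : ProperSpace (LinearMap.ker (P : X →ₗ[ℂ] M)) := FiniteDimensional.proper ℂ _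
      have h6 : IsCompactOperator (F.codRestrict _ hker) :=
        isCompactOperator_of_locallyCompactSpace_dom (F.codRestrict _ hker)
      exact h6.clm_comp (LinearMap.ker (P : X →ₗ[ℂ] M)).subtypeL

end Pool.Agent.V110.ES
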